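import Pool.Agent.Y370.RigidC.Cubic

/-!
# Representations come in families indexed by the real numbers

Strengthening of `Pool.Agent.Helper680.RigidConfig.Th.main_rep`.
-/

set_option autoImplicit false

namespace Pool.Agent.Y370.RigidC

open Matrix Pool.Agent.Helper680.RigidConfig Pool.Agent.Helper680.RigidConfig.Th

/-- the representations contain a family of pairwise inequivalent ones indexed by the reals -/
def Many {V : Type} (G : Cfg V) : Prop :=
  ∃ F : ℝ → V → Fin 3 → ℝ, (∀ t, IsRep G (F t)) ∧ ∀ s t, s ≠ t → ¬ Eqv G (F s) (F t)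

variable {V : Type}

theorem theta_fam [Fintype V] (G : Cfg V) (E : V → Fin 3 → ℝ) (hE : IsRep G E) (u v : V) (Θ : Theta G u v)
    (hcu : E (Θ.e 0 0) ⬝ᵥ (E (Θ.e 1 0) ⨯₃ E (Θ.e 2 0)) ≠ 0) :
    ∃ F : ℝ → V → Fin 3 → ℝ, (∀ t, IsRep G (F t) ∧
      ∀ w, w ≠ u → w ≠ v → (∀ i j, j ≤ Θ.k i → w ≠ Θ.q i j) → F t w = E w) ∧
      ∀ s t, s ≠ t → ∀ c : ℝ, F s u ≠ c • F t u := by
  classical
  obtain ⟨κ, hκU, hκW, hκQ, hκN⟩ := Θ.exists_code
  set f : (Fin 3 → ℝ) → ℝ := fun x => T (A := ℝ) (fun j => E (Θ.e 2 j)) (Θ.k 2) x ⬝ᵥ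
      (T (A := ℝ) (fun j => E (Θ.e 0 j)) (Θ.k 0) x ⨯₃ T (A := ℝ) (fun j => E (Θ.e 1 j)) (Θ.k 1) x) with hfdef
  set S : Finset (V × V) := Finset.univ.filter (fun p => G.col p.1 ≠ G.col p.2 ∧ ¬ G.adj p.1 p.2) with hS
  set g : MvPolynomial (Fin 3) ℝ := ∏ p ∈ S,
    (newE (MvPolynomial (Fin 3) ℝ) E κ Θ.k Θ.e (fun i => MvPolynomial.X i) p.1 ⬝ᵥ
     newE (MvPolynomial (Fin 3) ℝ) E κ Θ.k Θ.e (fun i => MvPolynomial.X i) p.2) with hg
  have hgB : ∀ (B : Type) [Field B] [Algebra ℝ B] (y : Fin 3 → B), MvPolynomial.aeval y g =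
      ∏ p ∈ S, (newE B E κ Θ.k Θ.e y p.1 ⬝ᵥ newE B E κ Θ.k Θ.e y p.2) := by
    intro B _ _ y
    rw [hg, map_prod]
    apply Finset.prod_congr rfl
    intro p _
    have h1 := map_newE (MvPolynomial.aeval y : MvPolynomial (Fin 3) ℝ →ₐ[ℝ] B) E κ Θ.k Θ.e (fun i => MvPolynomial.X i) p.1
    have h2 := map_newE (MvPolynomial.aeval y : MvPolynomial (Fin 3) ℝ →ₐ[ℝ] B) E κ Θ.k Θ.e (fun i => MvPolynomial.X i) p.2
    simp only [MvPolynomial.aeval_X] at h1 h2
    rw [← h1, ← h2, dot3, dot3]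
    simp only [map_add, map_mul]
  set a := E (Θ.e 0 0) with ha
  set b := E (Θ.e 1 0) with hb
  set d := E (Θ.e 2 0) with hd
  -- colours
  have hcol : ∀ i, G.col (Θ.e i 0) = G.col u := by
    intro i
    have h1 := G.bip (Θ.adj0 i)
    have h2 := G.bip (Θ.adjE i 0 (Nat.zero_le _))
    revert h1 h2
    cases G.col u <;> cases G.col (Θ.q i 0) <;> cases G.col (Θ.e i 0) <;> simp
  have hq01 : Θ.q 0 0 ≠ Θ.q 1 0 := fun h => absurd (Θ.inj 0 0 1 0 (Nat.zero_le _) (Nat.zero_le _) h).1 (by decide)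
  have hdet : E u ⬝ᵥ (a ⨯₃ b) ≠ 0 := by
    apply hE.det_ne (l := Θ.q 0 0) (Θ.e_ne_u 0 0 (Nat.zero_le _)).symm (Θ.adj0 0) (G.symm (Θ.adjE 0 0 (Nat.zero_le _))) (hcol 1)
    intro hadj
    exact G.lin (Θ.e_ne_u 1 0 (Nat.zero_le _)) hq01 hadj (G.symm (Θ.adjE 1 0 (Nat.zero_le _))) (Θ.adj0 0) (Θ.adj0 1)
  have hfu : f (E u) = 0 := by
    simp only [hfdef]
    obtain ⟨c0, _, h0⟩ := Θ.T_orig hE 0 (Θ.k 0) le_rfl
    obtain ⟨c1, _, h1⟩ := Θ.T_orig hE 1 (Θ.k 1) le_rfl
    obtain ⟨c2, _, h2⟩ := Θ.T_orig hE 2 (Θ.k 2) le_rfl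
    rw [h0, h1, h2]
    obtain ⟨c, hc⟩ := cross_smul_of_orth (hE.1 v) (hE.dot (Θ.adjL 0)) (hE.dot (Θ.adjL 1))
    rw [LinearMap.map_smul₂, map_smul, hc, smul_dotProduct, dotProduct_smul, dotProduct_smul, dotProduct_smul,
      hE.dot (Θ.adjL 2)]
    simp
  have hT0a : T (A := ℝ) (fun j => E (Θ.e 0 j)) (Θ.k 0) a = 0 := by
    have := T_self (A := ℝ) (fun j => E (Θ.e 0 j)) (Θ.k 0)
    rwa [emb_real] at this
  have hT1b : T (A := ℝ) (fun j => E (Θ.e 1 j)) (Θ.k 1) b = 0 := by
    have := T_self (A := ℝ) (fun j => E (Θ.e 1 j)) (Θ.k 1)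
    rwa [emb_real] at this
  have hT2d : T (A := ℝ) (fun j => E (Θ.e 2 j)) (Θ.k 2) d = 0 := by
    have := T_self (A := ℝ) (fun j => E (Θ.e 2 j)) (Θ.k 2)
    rwa [emb_real] at this
  have hfd : f d = 0 := by
    simp only [hfdef]
    rw [hT2d]; simp
  have hcoord := coord hdet d
  have hαd : (d ⬝ᵥ (a ⨯₃ b)) / (E u ⬝ᵥ (a ⨯₃ b)) ≠ 0 := by
    apply div_ne_zero _ hdet
    have : d ⬝ᵥ (a ⨯₃ b) = a ⬝ᵥ (b ⨯₃ d) := by
      simp only [dot3, cross3]; simp; ring
    rw [this]; exact hcu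
  have hst : (E u ⬝ᵥ (d ⨯₃ b)) / (E u ⬝ᵥ (a ⨯₃ b)) ≠ 0 ∨ (E u ⬝ᵥ (a ⨯₃ d)) / (E u ⬝ᵥ (a ⨯₃ b)) ≠ 0 := by
    by_contra hcon
    push Not at hcon
    rw [hcon.1, hcon.2, zero_smul, zero_smul, add_zero, add_zero] at hcoord
    apply hE.cross_ne (Θ.e_ne_u 2 0 (Nat.zero_le _)) (hcol 2)
    rw [← hd, hcoord, LinearMap.map_smul₂, cross_self, smul_zero]
  set U0 := T (A := ℝ) (fun j => E (Θ.e 0 j)) (Θ.k 0) (E u) with hU0
  set U1 := T (A := ℝ) (fun j => E (Θ.e 1 j)) (Θ.k 1) (E u) with hU1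
  set U2 := T (A := ℝ) (fun j => E (Θ.e 2 j)) (Θ.k 2) (E u) with hU2
  set B0 := T (A := ℝ) (fun j => E (Θ.e 0 j)) (Θ.k 0) b with hB0
  set A1 := T (A := ℝ) (fun j => E (Θ.e 1 j)) (Θ.k 1) a with hA1
  set A2 := T (A := ℝ) (fun j => E (Θ.e 2 j)) (Θ.k 2) a with hA2
  set B2 := T (A := ℝ) (fun j => E (Θ.e 2 j)) (Θ.k 2) b with hB2
  obtain ⟨X, hX, hX3⟩ := cubic_fam f g (E u) a b d
    (U2 ⬝ᵥ (U0 ⨯₃ A1) + A2 ⬝ᵥ (U0 ⨯₃ U1))
    (U2 ⬝ᵥ (B0 ⨯₃ U1) + B2 ⬝ᵥ (U0 ⨯₃ U1))
    (A2 ⬝ᵥ (U0 ⨯₃ A1))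
    (U2 ⬝ᵥ (B0 ⨯₃ A1) + A2 ⬝ᵥ (B0 ⨯₃ U1) + B2 ⬝ᵥ (U0 ⨯₃ A1))
    (B2 ⬝ᵥ (B0 ⨯₃ U1))
    (A2 ⬝ᵥ (B0 ⨯₃ A1))
    (B2 ⬝ᵥ (B0 ⨯₃ A1))
    (by
      intro α s t
      have hu3 : U2 ⬝ᵥ (U0 ⨯₃ U1) = 0 := hfu
      simp only [hfdef, T_add, T_smul, hT0a, hT1b, smul_zero, add_zero]
      rw [← hU0, ← hU1, ← hU2, ← hB0, ← hA1, ← hA2, ← hB2]
      simp only [map_add, map_smul, LinearMap.add_apply, LinearMap.smul_apply, dotProduct_add, add_dotProduct,
        smul_dotProduct, dotProduct_smul, smul_eq_mul, hu3]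
      ring)
    (indep hdet) _ _ _ hcoord hαd hst hfd
    (by
      intro c hc
      have : (fun i => c * ((E u i : ℝ) : ℂ)) = c • emb ℂ (E u) := by
        funext i; simp [emb]
      rw [this, hgB]
      rw [Finset.prod_ne_zero_iff]
      intro p hp
      obtain ⟨μ1, h1, e1⟩ := Θ.newE_orig hE κ hκU hκW hκQ ℂ c hc p.1
      obtain ⟨μ2, h2, e2⟩ := Θ.newE_orig hE κ hκU hκW hκQ ℂ c hc p.2
      rw [e1, e2, smul_dotProduct, dotProduct_smul, emb_dot, smul_eq_mul, smul_eq_mul]
      apply mul_ne_zero h1 (mul_ne_zero h2 _)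
      rw [hS, Finset.mem_filter] at hp
      intro h0
      apply hp.2.2
      rw [← hE.2 _ _ hp.2.1]
      exact (map_eq_zero (algebraMap ℝ ℂ)).mp h0)
  refine ⟨fun t => newE ℝ E κ Θ.k Θ.e (X t), fun t => ⟨?_, ?_⟩, ?_⟩
  · obtain ⟨hx1, hx2⟩ := hX t
    set x := X t with hxdef
    have hnon : ∀ y z, G.col y ≠ G.col z → ¬ G.adj y z →
        newE ℝ E κ Θ.k Θ.e x y ⬝ᵥ newE ℝ E κ Θ.k Θ.e x z ≠ 0 := by
      intro y z h1 h2
      have h3 := hgB ℝ x
      rw [MvPolynomial.aeval_eq_eval] at h3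
      rw [h3, Finset.prod_ne_zero_iff] at hx2
      exact hx2 (y, z) (by rw [hS, Finset.mem_filter]; exact ⟨Finset.mem_univ _, h1, h2⟩)
    show IsRep G (newE ℝ E κ Θ.k Θ.e x)
    constructor
    · intro w h0
      obtain ⟨z, hz1, hz2⟩ := G.exists_non w
      apply hnon w z hz1 hz2
      rw [h0]; simp
    · intro y z hyz
      constructor
      · intro h0
        by_contra hna
        exact hnon y z hyz hna h0
      · intro hadj
        exact Θ.incid hE κ hκU hκW hκQ hκN x hx1 y z hadj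
  · intro w h1 h2 h3
    show newE ℝ E κ Θ.k Θ.e (X t) w = E w
    unfold newE
    rw [(hκN w).mpr ⟨h1, h2, h3⟩]
    simp only
    rw [emb_real]
  · intro s t hst c
    have hU : ∀ x, newE ℝ E κ Θ.k Θ.e x u = x := by
      intro x
      unfold newE; rw [(hκU u).mpr rfl]
    show newE ℝ E κ Θ.k Θ.e (X s) u ≠ c • newE ℝ E κ Θ.k Θ.e (X t) u
    rw [hU, hU]
    exact hX3 s t hst c
theorem move_fam [Fintype V] (G : Cfg V) (E : V → Fin 3 → ℝ) (hE : IsRep G E) (S : Set V)
    (closed : ∀ p, p ∈ S → G.col p = true → ∀ l, G.adj p l → l ∈ S)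
    (O : Finset (V × V)) (hO : ∀ l p, l ∈ S → G.col l = false → p ∉ S → G.adj l p → (l, p) ∈ O)
    (hcard : O.card ≤ 7)
    (a b d u : V) (ha : a ∉ S) (hb : b ∉ S) (hd : d ∉ S) (hu : u ∉ S)
    (ca : G.col a = true) (cb : G.col b = true) (cd : G.col d = true) (cu : G.col u = true)
    (hdet : E a ⬝ᵥ (E b ⨯₃ E d) ≠ 0) (h1 : E u ⬝ᵥ (E b ⨯₃ E d) ≠ 0) (h2 : E a ⬝ᵥ (E u ⨯₃ E d) ≠ 0)
    (h3 : E a ⬝ᵥ (E b ⨯₃ E u) ≠ 0)
    (x x' : V) (hx : x ∈ S) (hx' : x' ∈ S) (hne : x ≠ x') (cx : G.col x = true) (cx' : G.col x' = true) :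
    Many G := by
  classical
  -- keep only the real outgoing pairs
  set O' : Finset (V × V) := O.filter (fun o => G.adj o.1 o.2 ∧ o.1 ∈ S ∧ G.col o.1 = false ∧ o.2 ∉ S) with hO'
  have hcard' : Fintype.card O' ≤ 7 := by
    rw [Fintype.card_coe]
    exact (Finset.card_filter_le _ _).trans hcard
  obtain ⟨M, hM, hMs⟩ := exists_nonscalar hcard' (fun o => E o.1.2) (fun o => E o.1.1)
  set N : ℝ → Matrix (Fin 3) (Fin 3) ℝ := fun t => 1 + t • M with hN
  set F : ℝ → V → (Fin 3 → ℝ) := fun t w =>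
    if w ∈ S then (if G.col w = true then ((N t).adjugate)ᵀ *ᵥ E w else N t *ᵥ E w) else E w with hF
  have hF0 : F 0 = E := by
    funext w
    simp only [hF, hN, zero_smul, add_zero, Matrix.adjugate_one, Matrix.transpose_one, Matrix.one_mulVec, ite_self]
  have hNc : Continuous N := by
    simp only [hN]; fun_prop
  have hFc : ∀ w, Continuous (fun t => F t w) := by
    intro w
    simp only [hF]
    split_ifs
    · exact Continuous.matrix_mulVec (Continuous.matrix_transpose (Continuous.matrix_adjugate hNc)) continuous_const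
    · exact Continuous.matrix_mulVec hNc continuous_const
    · exact continuous_const
  have hpair : ∀ y z, Continuous (fun t => F t y ⬝ᵥ F t z) := by
    intro y z
    exact Continuous.dotProduct (hFc y) (hFc z)
  have ev : ∀ᶠ t in nhds (0:ℝ), (N t).det ≠ 0 ∧ ∀ yz : V × V, G.col yz.1 ≠ G.col yz.2 → ¬ G.adj yz.1 yz.2 →
      F t yz.1 ⬝ᵥ F t yz.2 ≠ 0 := by
    rw [Filter.eventually_and]
    constructor
    · have hc : Continuous (fun t => (N t).det) := Continuous.matrix_det hNc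
      have h0 : (N 0).det ≠ 0 := by simp [hN]
      exact hc.continuousAt.eventually_ne h0
    · rw [Filter.eventually_all]
      intro yz
      by_cases hc : G.col yz.1 ≠ G.col yz.2
      · by_cases hadj : G.adj yz.1 yz.2
        · exact Filter.Eventually.of_forall (fun t _ h => absurd hadj h)
        · have h0 : F 0 yz.1 ⬝ᵥ F 0 yz.2 ≠ 0 := by
            rw [hF0]
            intro h
            exact hadj ((hE.2 _ _ hc).mp h)
          have := (hpair yz.1 yz.2).continuousAt.eventually_ne h0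
          exact this.mono (fun t ht _ _ => ht)
      · exact Filter.Eventually.of_forall (fun t h => absurd h hc)
  obtain ⟨ε, hε, hev⟩ : ∃ ε > 0, ∀ t : ℝ, 0 < t → t < ε → (N t).det ≠ 0 ∧
      ∀ yz : V × V, G.col yz.1 ≠ G.col yz.2 → ¬ G.adj yz.1 yz.2 → F t yz.1 ⬝ᵥ F t yz.2 ≠ 0 := by
    obtain ⟨ε, hε, hball⟩ := Metric.eventually_nhds_iff.1 ev
    refine ⟨ε, hε, fun t h0 h1 => hball ?_⟩
    rw [Real.dist_eq, sub_zero, abs_of_pos h0]; exact h1
  refine fam_of_Ioo hε F (fun x => IsRep G x) (fun x y => ¬ Eqv G x y) (fun t ht0 ht1 => ?_)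
    (fun s t hs0 hs1 ht0 ht1 hst => ?_)
  · obtain ⟨htdet, htn⟩ := hev t ht0 ht1
    have hadj0 : ∀ y z, G.col y = true → G.adj y z → F t y ⬝ᵥ F t z = 0 := by
      intro y z hy hyz
      have hz : G.col z = false := by
        have := G.bip hyz
        rw [hy] at this
        cases h : G.col z
        · rfl
        · rw [h] at this; exact absurd rfl this
      by_cases hyS : y ∈ S
      · have hzS := closed y hyS hy z hyz
        simp only [hF, hyS, hzS, if_true, hy, hz]
        simp only [Bool.false_eq_true, if_false]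
        rw [adj_pair, hE.dot hyz, mul_zero]
      · by_cases hzS : z ∈ S
        · simp only [hF, hyS, hzS, if_true, if_false, hz, Bool.false_eq_true]
          have hmem : (z, y) ∈ O' := by
            rw [hO', Finset.mem_filter]
            exact ⟨hO z y hzS hz hyS (G.symm hyz), G.symm hyz, hzS, hz, hyS⟩
          have h4 := hM ⟨(z, y), hmem⟩
          simp only at h4
          simp only [hN, Matrix.add_mulVec, Matrix.one_mulVec, Matrix.smul_mulVec, dotProduct_add, dotProduct_smul,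
            h4, hE.dot hyz, smul_zero, add_zero]
        · simp only [hF, hyS, hzS, if_false]
          exact hE.dot hyz
    have hadj1 : ∀ y z, G.adj y z → F t y ⬝ᵥ F t z = 0 := by
      intro y z hyz
      cases hy : G.col y
      · have hz : G.col z = true := by
          have := G.bip hyz
          rw [hy] at this
          cases h : G.col z
          · rw [h] at this; exact absurd rfl this
          · rfl
        rw [dotProduct_comm]
        exact hadj0 z y hz (G.symm hyz)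
      · exact hadj0 y z hy hyz
    constructor
    · intro w h0
      obtain ⟨z, hz1, hz2⟩ := G.exists_non w
      apply htn (w, z) hz1 hz2
      simp only
      rw [h0]; simp
    · intro y z hyz
      constructor
      · intro h0
        by_contra hna
        exact htn (y, z) hyz hna h0
      · exact hadj1 y z
  · rintro ⟨g, hg, hgp, hgl⟩
    have fix : ∀ w, w ∉ S → G.col w = true → ∃ c : ℝ, g *ᵥ E w = c • E w := by
      intro w hw hcw
      obtain ⟨c, hc, h⟩ := hgp w hcw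
      have e1 : F t w = E w := by simp only [hF, hw, if_false]
      have e2 : F s w = E w := by simp only [hF, hw, if_false]
      rw [e1, e2] at h
      refine ⟨c⁻¹, ?_⟩
      conv_rhs => rw [h]
      rw [smul_smul, inv_mul_cancel₀ hc, one_smul]
    obtain ⟨ga, ea⟩ := fix a ha ca
    obtain ⟨gb, eb⟩ := fix b hb cb
    obtain ⟨gd, ed⟩ := fix d hd cd
    obtain ⟨gu, eu⟩ := fix u hu cu
    have hsc := frameB hdet ea eb ed eu h1 h2 h3
    have hlam : gu ≠ 0 := by
      intro h0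
      apply hg
      rw [h0] at hsc
      have : g = 0 := by
        ext i j
        have := congrFun (hsc (Pi.single j 1)) i
        simp only [Matrix.mulVec_single_one, zero_smul, Matrix.col_apply] at this
        simpa using this
      rw [this]; simp
    have hline : ∀ l, l ∈ S → G.col l = false → ∃ c : ℝ, M *ᵥ E l = c • E l := by
      intro l hl hcl
      obtain ⟨c, hc, h⟩ := hgl l hcl
      rw [transpose_scalar hsc] at h
      have h5 : ∀ t, F t l = N t *ᵥ E l := by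
        intro t
        simp only [hF, hl, if_true, hcl, Bool.false_eq_true, if_false]
      rw [h5 s, h5 t] at h
      simp only [hN, Matrix.add_mulVec, Matrix.one_mulVec, Matrix.smul_mulVec, smul_add, smul_smul] at h
      have h6 : (gu * t - c * s) • (M *ᵥ E l) = (c - gu) • E l := by
        have h7 : (gu * t - c * s) • (M *ᵥ E l) - (c - gu) • E l =
            (gu • E l + (gu * t) • (M *ᵥ E l)) - (c • E l + (c * s) • (M *ᵥ E l)) := by
          simp only [sub_smul]; abel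
        rw [← sub_eq_zero, h7, h, sub_self]
      have h8 : gu * t - c * s ≠ 0 := by
        intro h9
        rw [h9, zero_smul] at h6
        have h10 : c - gu = 0 := by
          rcases smul_eq_zero.1 h6.symm with h11 | h11
          · exact h11
          · exact absurd h11 (hE.1 l)
        have h11 : gu * (t - s) = 0 := by
          have : c = gu := by linarith
          rw [this] at h9; linarith
        rcases mul_eq_zero.1 h11 with h12 | h12
        · exact hlam h12
        · exact hst (by linarith)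
      refine ⟨(gu * t - c * s)⁻¹ * (c - gu), ?_⟩
      rw [mul_smul, ← h6, inv_smul_smul₀ h8]
    obtain ⟨lam, hlam2⟩ := hE.scalar_of_two (M := M) hne (by rw [cx, cx'])
      (fun y hy => hline y (closed x hx cx y hy) (by
        have := G.bip hy
        rw [cx] at this
        cases h : G.col y
        · rfl
        · rw [h] at this; exact absurd rfl this))
      (fun y hy => hline y (closed x' hx' cx' y hy) (by
        have := G.bip hy
        rw [cx'] at this
        cases h : G.col y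
        · rfl
        · rw [h] at this; exact absurd rfl this))
    exact hMs lam hlam2
section LocPart

variable {G : Cfg V} {u m : V} {l x y : Fin 3 → V}

open Classical in
theorem move_of_smallM [Fintype V] (h : Loc G u m l x y) {E : V → Fin 3 → ℝ} (hE : IsRep G E)
    (hdet : E (y 0) ⬝ᵥ (E (y 1) ⨯₃ E (y 2)) ≠ 0) {Z : Set V} (hZW : ∀ z ∈ Z, z ∈ h.W)
    (hZ : ∀ z ∈ Z, ∀ w ∈ h.W, G.adj z w → w ∈ Z)
    (hcard : (Finset.univ.filter (fun o : V × V => o.1 ∈ h.S Z ∧ G.col o.1 = false ∧ o.2 ∉ h.S Z ∧ G.adj o.1 o.2)).card ≤ 8)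
    (p p' : V) (hp : p ∈ Z) (hp' : p' ∈ Z) (hne : p ≠ p') (cp : G.col p = true) (cp' : G.col p' = true) :
    Many G := by
  have h3 := G.three_dvd (h.S Z) (h.closedS hZW hZ)
  have hcard' : (Finset.univ.filter (fun o : V × V => o.1 ∈ h.S Z ∧ G.col o.1 = false ∧ o.2 ∉ h.S Z ∧ G.adj o.1 o.2)).card ≤ 7 := by
    omega
  have hS := h.uyS hZW
  refine move_fam G E hE (h.S Z) (h.closedS hZW hZ) _ ?_ hcard' (y 0) (y 1) (y 2) u (hS.2 0) (hS.2 1) (hS.2 2) hS.1
    (h.cy 0) (h.cy 1) (h.cy 2) h.cu hdet ?_ ?_ ?_ p p' (Or.inl hp) (Or.inl hp') hne cp cp'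
  · intro l' q h1 h2 h3 h4
    rw [Finset.mem_filter]
    exact ⟨Finset.mem_univ _, h1, h2, h3, h4⟩
  · exact h.frame hE (by decide)
  · have := h.frame hE (i := 0) (j := 2) (by decide)
    intro h0
    apply this
    rw [dot3, cross3] at h0 ⊢
    simp only [Fin.isValue, cons_val_zero, cons_val_one, cons_val] at h0 ⊢
    linear_combination -h0
  · have := h.frame hE (i := 0) (j := 1) (by decide)
    intro h0
    apply this
    rw [dot3, cross3] at h0 ⊢
    simp only [Fin.isValue, cons_val_zero, cons_val_one, cons_val] at h0 ⊢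
    linear_combination h0

/-- if the terminal x i is separated from the two others then the representation can be changed -/
theorem isolatedM [Fintype V] (h : Loc G u m l x y) {E : V → Fin 3 → ℝ} (hE : IsRep G E)
    (hdet : E (y 0) ⬝ᵥ (E (y 1) ⨯₃ E (y 2)) ≠ 0) (i j k : Fin 3) (hij : i ≠ j) (hik : i ≠ k) (hjk : j ≠ k)
    (hall : ∀ t : Fin 3, t = i ∨ t = j ∨ t = k)
    (h1 : x j ∉ h.comp i) (h2 : x k ∉ h.comp i) :
    Many G := by
  classical
  have hXW := h.comp_W i
  have hXc := h.comp_closed i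
  have hYW := h.comp_W j
  have hYc := h.comp_closed j
  have xi : x i ∈ h.comp i := ⟨0, rfl⟩
  have xj : x j ∈ h.comp j := ⟨0, rfl⟩
  have xij : x i ∉ h.comp j := fun h3 => h.comp_disj h1 (x i) xi h3
  have cX : ((Finset.univ : Finset (Fin 3)).filter (fun t => x t ∈ h.comp i)).card = 1 := by
    have : ((Finset.univ : Finset (Fin 3)).filter (fun t => x t ∈ h.comp i)) = {i} := by
      ext t
      simp only [Finset.mem_filter, Finset.mem_univ, true_and, Finset.mem_singleton]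
      constructor
      · intro ht
        rcases hall t with rfl | rfl | rfl
        · rfl
        · exact absurd ht h1
        · exact absurd ht h2
      · rintro rfl; exact xi
    rw [this, Finset.card_singleton]
  have outX := h.card_out hXW hXc
  have outY := h.card_out hYW hYc
  rw [cX] at outX
  -- n_X + n_Y ≤ 6
  have nXY : (Finset.univ.filter (fun o : V × V => o.1 ∈ h.comp i ∧ (∃ i, o.2 = y i) ∧ G.adj o.1 o.2)).card +
      (Finset.univ.filter (fun o : V × V => o.1 ∈ h.comp j ∧ (∃ i, o.2 = y i) ∧ G.adj o.1 o.2)).card ≤ 6 := by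
    rw [← Finset.card_union_of_disjoint]
    · refine (Finset.card_le_card ?_).trans h.card_Ball
      intro o ho
      rw [Finset.mem_union, Finset.mem_filter, Finset.mem_filter] at ho
      rw [Finset.mem_filter]
      rcases ho with ⟨_, k1, k2, k3⟩ | ⟨_, k1, k2, k3⟩
      · exact ⟨Finset.mem_univ _, (hXW _ k1).2.2.2, k2, k3⟩
      · exact ⟨Finset.mem_univ _, (hYW _ k1).2.2.2, k2, k3⟩
    · rw [Finset.disjoint_left]
      intro o ho ho'
      rw [Finset.mem_filter] at ho ho'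
      exact h.comp_disj h1 _ ho.2.1 ho'.2.1
  obtain ⟨p, hp, hpne, hpc⟩ := h.second hXW hXc i j k hij hik hjk hall xi
  by_cases hA : (Finset.univ.filter (fun o : V × V => o.1 ∈ h.S (h.comp i) ∧ G.col o.1 = false ∧ o.2 ∉ h.S (h.comp i) ∧ G.adj o.1 o.2)).card ≤ 8
  · exact move_of_smallM h hE hdet hXW hXc hA p (x i) hp xi hpne hpc (h.cx i)
  · have hnY : (Finset.univ.filter (fun o : V × V => o.1 ∈ h.comp j ∧ (∃ i, o.2 = y i) ∧ G.adj o.1 o.2)).card ≤ 1 := by
      by_cases hq : ∃ q, q ∈ h.comp i ∧ G.adj m q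
      · rw [if_pos hq] at outX
        have := Loc.t_pos G m (h.comp i) hq
        omega
      · rw [if_neg hq] at outX
        omega
    have tY : (if (∃ q, q ∈ h.comp j ∧ G.adj m q) then (3 - ((Finset.univ.filter (fun p => G.adj m p)).filter (fun p => p ∈ h.comp j)).card) else 0) ≤ 2 := by
      split_ifs with hq
      · have := Loc.t_pos G m (h.comp j) hq
        omega
      · omega
    by_cases hk : x k ∈ h.comp j
    · have cY : ((Finset.univ : Finset (Fin 3)).filter (fun t => x t ∈ h.comp j)).card ≤ 2 := by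
        have : ((Finset.univ : Finset (Fin 3)).filter (fun t => x t ∈ h.comp j)) ⊆ {j, k} := by
          intro t
          simp only [Finset.mem_filter, Finset.mem_univ, true_and, Finset.mem_insert, Finset.mem_singleton]
          intro ht
          rcases hall t with rfl | rfl | rfl
          · exact absurd ht xij
          · exact Or.inl rfl
          · exact Or.inr rfl
        exact (Finset.card_le_card this).trans Finset.card_le_two
      have hxjk : x j ≠ x k := by
        intro he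
        exact h.not_on hjk (h.ux j).symm (h.ax j) (he ▸ h.ax k)
      exact move_of_smallM h hE hdet hYW hYc (by omega) (x j) (x k) xj hk hxjk (h.cx j) (h.cx k)
    · have cY : ((Finset.univ : Finset (Fin 3)).filter (fun t => x t ∈ h.comp j)).card ≤ 1 := by
        have : ((Finset.univ : Finset (Fin 3)).filter (fun t => x t ∈ h.comp j)) ⊆ {j} := by
          intro t
          simp only [Finset.mem_filter, Finset.mem_univ, true_and, Finset.mem_singleton]
          intro ht
          rcases hall t with rfl | rfl | rfl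
          · exact absurd ht xij
          · rfl
          · exact absurd ht hk
        refine (Finset.card_le_card this).trans ?_
        rw [Finset.card_singleton]
      obtain ⟨p', hp', hpne', hpc'⟩ := h.second hYW hYc j i k hij.symm hjk hik
        (fun t => by rcases hall t with h | h | h
                     · exact Or.inr (Or.inl h)
                     · exact Or.inl h
                     · exact Or.inr (Or.inr h)) xj
      exact move_of_smallM h hE hdet hYW hYc (by omega) p' (x j) hp' xj hpne' hpc' (h.cx j)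

theorem connect_or_moveM [Fintype V] (h : Loc G u m l x y) {E : V → Fin 3 → ℝ} (hE : IsRep G E)
    (hdet : E (y 0) ⬝ᵥ (E (y 1) ⨯₃ E (y 2)) ≠ 0) :
    (x 1 ∈ h.comp 0 ∧ x 0 ∈ h.comp 2) ∨ Many G := by
  have symc : ∀ i j, x j ∈ h.comp i → x i ∈ h.comp j := by
    rintro i j ⟨n, hn⟩
    exact ⟨n, Loc.reach_symm h.AW_symm hn⟩
  have trc : ∀ i j k, x j ∈ h.comp i → x k ∈ h.comp j → x k ∈ h.comp i := by
    rintro i j k ⟨n, hn⟩ ⟨n', hn'⟩
    exact ⟨_, hn.trans hn'⟩
  by_cases h1 : x 1 ∈ h.comp 0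
  · by_cases h2 : x 0 ∈ h.comp 2
    · exact Or.inl ⟨h1, h2⟩
    · right
      refine isolatedM h hE hdet 2 0 1 (by decide) (by decide) (by decide) (by decide) h2 ?_
      intro h3
      exact h2 (trc 2 1 0 h3 (symc 0 1 h1))
  · right
    by_cases h2 : x 0 ∈ h.comp 2
    · refine isolatedM h hE hdet 1 0 2 (by decide) (by decide) (by decide) (by decide) (fun h3 => h1 (symc 1 0 h3)) ?_
      intro h3
      exact h1 (trc 0 2 1 (symc 2 0 h2) (symc 1 2 h3))
    · exact isolatedM h hE hdet 0 1 2 (by decide) (by decide) (by decide) (by decide) h1 (fun h3 => h2 (symc 0 2 h3))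


end LocPart

/-- the main alternative: the local data give a second, inequivalent representation -/
theorem second_repM [Fintype V] {G : Cfg V} {u m : V} {l x y : Fin 3 → V} (h : Loc G u m l x y)
    {E : V → Fin 3 → ℝ} (hE : IsRep G E)
    (hdet : E (y 0) ⬝ᵥ (E (y 1) ⨯₃ E (y 2)) ≠ 0) :
    Many G := by
  rcases connect_or_moveM h hE hdet with ⟨hc1, hc2⟩ | hmv
  · obtain ⟨v, Θ, e0, e1, e2, vW, hq⟩ := exists_theta G h.W u (l 0) (l 1) (l 2) (x 0) (x 1) (x 2) (y 0) (y 1) (y 2)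
      (h.li 0 1 (by decide)) (h.li 0 2 (by decide)) (h.li 1 2 (by decide)) (h.au 0) (h.au 1) (h.au 2)
      (h.ax 0) (h.ax 1) (h.ax 2) (h.ay 0) (h.ay 1) (h.ay 2) (h.ux 0) (h.ux 1) (h.ux 2) (h.uy 0) (h.uy 1) (h.uy 2)
      (h.xy 0) (h.xy 1) (h.xy 2) (fun h1 => h1.1 rfl) (fun h1 => h1.2.2.2 0 rfl) (fun h1 => h1.2.2.2 1 rfl)
      (fun h1 => h1.2.2.2 2 rfl) (h.xW 0) (h.xW 1) (h.xW 2) (fun h1 => h1.2.2.1 0 rfl) (fun h1 => h1.2.2.1 1 rfl)
      (fun h1 => h1.2.2.1 2 rfl) hc1 hc2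
    obtain ⟨F, hF, hu⟩ := theta_fam G E hE u v Θ (by rw [e0, e1, e2]; exact hdet)
    refine ⟨F, fun t => (hF t).1, fun s t hst => ?_⟩
    -- everything outside W, u, l i is fixed
    have fixd : ∀ r w, w ≠ u → w ∉ h.W → (∀ i, w ≠ l i) → F r w = E w := by
      intro r w h1 h2 h3
      apply (hF r).2 w h1
      · rintro rfl; exact h2 vW
      · intro i j hj h4
        rcases hq i j hj with h5 | h5 | h5 | h5
        · rw [← h4] at h5; exact h2 h5
        · exact h3 0 (h4.trans h5)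
        · exact h3 1 (h4.trans h5)
        · exact h3 2 (h4.trans h5)
    have fy : ∀ r i, F r (y i) = E (y i) := by
      intro r i
      apply fixd r _ (h.uy i).symm (fun h1 => h1.2.2.1 i rfl)
      intro j hj
      have := h.cy i
      rw [hj, h.cl] at this
      exact absurd this (by decide)
    have hmu : m ≠ u := by
      intro h1
      have := h.cm
      rw [h1, h.cu] at this
      exact absurd this (by decide)
    have fm : ∀ r, F r m = E m := by
      intro r
      apply fixd r _ hmu (fun h1 => h1.2.1 rfl)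
      intro j hj
      apply h.mu
      rw [hj]
      exact G.symm (h.au j)
    rintro ⟨g, hg, hgp, hgl⟩
    have fix : ∀ i, ∃ c : ℝ, g *ᵥ E (y i) = c • E (y i) := by
      intro i
      obtain ⟨c, hc, h1⟩ := hgp (y i) (h.cy i)
      rw [fy s i, fy t i] at h1
      refine ⟨c⁻¹, ?_⟩
      conv_rhs => rw [h1]
      rw [smul_smul, inv_mul_cancel₀ hc, one_smul]
    obtain ⟨g0, k0⟩ := fix 0
    obtain ⟨g1, k1⟩ := fix 1
    obtain ⟨g2, k2⟩ := fix 2
    obtain ⟨c, hc, hm⟩ := hgl m h.cm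
    rw [fm s, fm t] at hm
    have ny : ∀ i, E (y i) ⬝ᵥ E m ≠ 0 := by
      intro i h0
      apply h.my i
      apply G.symm
      rw [← hE.2 (y i) m (by rw [h.cy, h.cm]; decide)]
      exact h0
    have hsc := frameA hdet k0 k1 k2 hm (ny 0) (ny 1) (ny 2)
    obtain ⟨c', hc', h5⟩ := hgp u h.cu
    rw [hsc, smul_smul] at h5
    exact hu t s (Ne.symm hst) _ h5
  · exact hmv

section selection

variable [Fintype V] {G : Cfg V} {E : V → Fin 3 → ℝ}

theorem case1M (hE : IsRep G E) {u z a b L0 L1 L2 k1 : V} (cu : G.col u = true)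
    (h01 : L0 ≠ L1) (h02 : L0 ≠ L2) (h12 : L1 ≠ L2)
    (au0 : G.adj u L0) (au1 : G.adj u L1) (au2 : G.adj u L2)
    (nz : ∀ l, G.adj l u → ¬ G.adj l z) (cz : G.col z = true)
    (ha : G.adj L0 a) (hau : a ≠ u) (hb : G.adj L1 b) (hbu : b ≠ u)
    (kz : G.adj k1 z) (ka : G.adj k1 a) (kb : G.adj k1 b) :
    Many G := by
  by_contra hno
  obtain ⟨a', ha', ha'u, ha'a⟩ := G.third L0 u a
  obtain ⟨b', hb', hb'u, hb'b⟩ := G.third L1 u b
  obtain ⟨d0, hd0, hd0u, _⟩ := G.third L2 u u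
  obtain ⟨d1, hd1, hd1u, hd10⟩ := G.third L2 u d0
  have n0 := nz L0 (G.symm au0)
  have n1 := nz L1 (G.symm au1)
  have n2 := nz L2 (G.symm au2)
  have nk : ∀ m, G.adj z m → ¬ G.adj m u := fun m hm h => nz m h (G.symm hm)
  have ne01 : ∀ p q, G.adj L0 p → p ≠ u → G.adj L1 q → p ≠ q := by
    rintro p q h1 h2 h3 rfl
    exact G.lin h2 h01 (G.symm h1) (G.symm h3) au0 au1
  have ne02 : ∀ p q, G.adj L0 p → p ≠ u → G.adj L2 q → p ≠ q := by
    rintro p q h1 h2 h3 rfl
    exact G.lin h2 h02 (G.symm h1) (G.symm h3) au0 au2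
  have ne12 : ∀ p q, G.adj L1 p → p ≠ u → G.adj L2 q → p ≠ q := by
    rintro p q h1 h2 h3 rfl
    exact G.lin h2 h12 (G.symm h1) (G.symm h3) au1 au2
  have hab : a ≠ b := ne01 a b ha hau hb
  have haz : a ≠ z := by rintro rfl; exact n0 ha
  have hbz : b ≠ z := by rintro rfl; exact n1 hb
  have ca : G.col a = true := Cfg.col_true (G.symm au0) ha cu
  have cb : G.col b = true := Cfg.col_true (G.symm au1) hb cu
  have kd : ∀ d, G.adj L2 d → ¬ G.adj d k1 := by
    intro d hd h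
    rcases G.mem_of_three (Ne.symm haz) (Ne.symm hbz) hab kz ka kb (G.symm h) with h1 | h1 | h1
    · rw [h1] at hd; exact n2 hd
    · exact ne02 a d ha hau hd h1.symm
    · exact ne12 b d hb hbu hd h1.symm
  have blk : ∀ m d d', G.adj z m → m ≠ k1 → G.adj L2 d → G.adj L2 d' → d ≠ d' → d ≠ u → d' ≠ u →
      G.adj m d ∨ (G.adj m a' ∧ ∃ w, G.adj w a' ∧ G.adj w b ∧ G.adj w d) ∨
      (G.adj m b' ∧ ∃ w, G.adj w b' ∧ G.adj w a ∧ G.adj w d) := by
    intro m d d' hm hmk hd hd' hdd hdu hd'u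
    by_contra hcon
    push Not at hcon
    obtain ⟨g1, g2, g3⟩ := hcon
    have cm : G.col m = false := (Cfg.col_of hm).1 cz
    have my0 : ¬ G.adj m a := fun h => G.lin haz hmk (G.symm h) (G.symm ka) hm (G.symm kz)
    have my1 : ¬ G.adj m b := fun h => G.lin hbz hmk (G.symm h) (G.symm kb) hm (G.symm kz)
    have hloc := Loc.mk' G u m L0 L1 L2 a' b' d' a b d cu cm h01 h02 h12 au0 au1 au2 ha' hb' hd' ha hb hd
      ha'u.symm hb'u.symm hd'u.symm hau.symm hbu.symm hdu.symm ha'a hb'b hdd.symm (nk m hm) my0 my1 g1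
      (fun h w h1 h2 h3 => g2 h w h1 h2 h3)
      (fun h w h1 h2 h3 => g3 h w h1 h2 h3)
      (fun h w h1 h2 h3 => by
        by_cases hw : w = k1
        · rw [hw] at h1
          exact kd d' hd' (G.symm h1)
        · exact G.lin hab hw (G.symm h2) (G.symm ka) (G.symm h3) (G.symm kb))
    apply hno
    apply second_repM hloc hE
    simp only [Fin.isValue, cons_val_zero, cons_val_one, cons_val]
    exact hE.det_ne hab (G.symm ka) (G.symm kb) (by rw [Cfg.col_true (G.symm au2) hd cu, ca]) (kd d hd)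
  obtain ⟨k2, hk2, hk21, _⟩ := G.third z k1 k1
  obtain ⟨k3, hk3, hk31, hk32⟩ := G.third z k1 k2
  have ex : ∀ p, p ≠ z → G.adj k2 p → G.adj k3 p → False := fun p hp h2 h3 =>
    G.lin hp (Ne.symm hk32) (G.symm h2) (G.symm h3) hk2 hk3
  have ha'z : a' ≠ z := by rintro rfl; exact n0 ha'
  have hb'z : b' ≠ z := by rintro rfl; exact n1 hb'
  have exD : ∀ m, G.adj z m → G.adj m d0 → G.adj m d1 → False := by
    intro m hm h0 h1
    have : m ≠ L2 := by rintro rfl; exact n2 (G.symm hm)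
    exact G.lin (Ne.symm hd10) this (G.symm h0) (G.symm hd0) (G.symm h1) (G.symm hd1)
  have exJ : ∀ (p q : V) (L : V), p ≠ q → G.adj L p → L = L0 ∨ L = L1 → p ≠ u →
      (∃ w, G.adj w p ∧ G.adj w q ∧ G.adj w d0) → (∃ w, G.adj w p ∧ G.adj w q ∧ G.adj w d1) → False := by
    rintro p q L hpq hL hLL hpu ⟨w, w1, w2, w3⟩ ⟨w', w1', w2', w3'⟩
    have hww : w = w' := by
      by_contra hne
      exact G.lin hpq hne (G.symm w1) (G.symm w1') (G.symm w2) (G.symm w2')
    subst hww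
    have hw : w = L2 := by
      by_contra hne
      exact G.lin (Ne.symm hd10) hne (G.symm w3) (G.symm hd0) (G.symm w3') (G.symm hd1)
    subst hw
    rcases hLL with rfl | rfl
    · exact ne02 p p hL hpu w1 rfl
    · exact ne12 p p hL hpu w1 rfl
  -- final contradiction
  have fin : ∀ d0 d1, G.adj L2 d0 → G.adj L2 d1 → d0 ≠ d1 → d0 ≠ u → d1 ≠ u →
      (∀ m, G.adj z m → G.adj m d0 → G.adj m d1 → False) →
      (∃ w, G.adj w a' ∧ G.adj w b ∧ G.adj w d0) → (∃ w, G.adj w b' ∧ G.adj w a ∧ G.adj w d1) →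
      ¬ (∃ w, G.adj w a' ∧ G.adj w b ∧ G.adj w d1) → ¬ (∃ w, G.adj w b' ∧ G.adj w a ∧ G.adj w d0) → False := by
    intro d0 d1 hd0 hd1 hd01 hd0u hd1u exD JA JB nJA nJB
    have hd0z : d0 ≠ z := by rintro rfl; exact n2 hd0
    have hd1z : d1 ≠ z := by rintro rfl; exact n2 hd1
    have b20 : G.adj k2 d0 ∨ G.adj k2 a' := by
      rcases blk k2 d0 d1 hk2 hk21 hd0 hd1 hd01 hd0u hd1u with h | h | h
      · exact Or.inl h
      · exact Or.inr h.1
      · exact absurd h.2 nJB
    have b30 : G.adj k3 d0 ∨ G.adj k3 a' := by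
      rcases blk k3 d0 d1 hk3 hk31 hd0 hd1 hd01 hd0u hd1u with h | h | h
      · exact Or.inl h
      · exact Or.inr h.1
      · exact absurd h.2 nJB
    have b21 : G.adj k2 d1 ∨ G.adj k2 b' := by
      rcases blk k2 d1 d0 hk2 hk21 hd1 hd0 hd01.symm hd1u hd0u with h | h | h
      · exact Or.inl h
      · exact absurd h.2 nJA
      · exact Or.inr h.1
    have b31 : G.adj k3 d1 ∨ G.adj k3 b' := by
      rcases blk k3 d1 d0 hk3 hk31 hd1 hd0 hd01.symm hd1u hd0u with h | h | h
      · exact Or.inl h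
      · exact absurd h.2 nJA
      · exact Or.inr h.1
    obtain ⟨J, s1, s2, s3⟩ := JA
    obtain ⟨J', t1, t2, t3⟩ := JB
    have geo8 : ∀ kj ki, G.adj z kj → G.adj z ki → G.adj kj d0 → G.adj kj b' → G.adj ki d1 → G.adj ki a' → False := by
      intro kj ki g1 g2 g3 g4 g5 g6
      exact mk8 hE (u := u) (z := z) (a := a) (a' := a') (b := b) (b' := b') (d0 := d0) (d1 := d1) (l0 := L0) (l1 := L1)
        (l2 := L2) (k1 := k1) (kj := kj) (ki := ki) (J := J) (J' := J') (by rw [cb, cu]) hau.symm ha'u.symm ha'a.symm hbu.symm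
        hb'u.symm hb'b.symm hab haz hbz (fun h => ne01 b b h hbu hb rfl) (ne01 a' b ha' ha'u hb) (ne02 a' d0 ha' ha'u hd0)
        (ne12 b d0 hb hbu hd0) hb'z.symm hd0z.symm (ne12 b' d0 hb' hb'u hd0) (ne01 a b' ha hau hb').symm
        (ne12 b' d1 hb' hb'u hd1) (ne02 a d1 ha hau hd1) ha'z.symm hd1z.symm (ne02 a' d1 ha' ha'u hd1)
        (G.symm au0) ha ha' (G.symm au1) hb hb' (G.symm au2) hd0 hd1 kz ka kb (G.symm g1) g3 g4 (G.symm g2) g5 g6
        s1 s2 s3 t1 t2 t3
    by_cases h2 : G.adj k2 d0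
    · have h3 : G.adj k3 a' := by
        rcases b30 with h | h
        · exact absurd h (fun h => ex d0 hd0z h2 h)
        · exact h
      have h4 : G.adj k2 b' := by
        rcases b21 with h | h
        · exact absurd h (fun h => exD k2 hk2 h2 h)
        · exact h
      have h5 : G.adj k3 d1 := by
        rcases b31 with h | h
        · exact h
        · exact absurd h (fun h => ex b' hb'z h4 h)
      exact geo8 k2 k3 hk2 hk3 h2 h4 h5 h3
    · have h3 : G.adj k2 a' := by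
        rcases b20 with h | h
        · exact absurd h h2
        · exact h
      have h4 : G.adj k3 d0 := by
        rcases b30 with h | h
        · exact h
        · exact absurd h (fun h => ex a' ha'z h3 h)
      have h5 : G.adj k3 b' := by
        rcases b31 with h | h
        · exact absurd h (fun h => exD k3 hk3 h4 h)
        · exact h
      have h6 : G.adj k2 d1 := by
        rcases b21 with h | h
        · exact h
        · exact absurd h (fun h => ex b' hb'z h h5)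
      exact geo8 k3 k2 hk3 hk2 h4 h5 h6 h3
  have hd0z : d0 ≠ z := by rintro rfl; exact n2 hd0
  have hd1z : d1 ≠ z := by rintro rfl; exact n2 hd1
  have c0 : (∃ w, G.adj w a' ∧ G.adj w b ∧ G.adj w d0) ∨ (∃ w, G.adj w b' ∧ G.adj w a ∧ G.adj w d0) := by
    rcases blk k2 d0 d1 hk2 hk21 hd0 hd1 (Ne.symm hd10) hd0u hd1u with h | h | h
    · rcases blk k3 d0 d1 hk3 hk31 hd0 hd1 (Ne.symm hd10) hd0u hd1u with h' | h' | h'
      · exact absurd h' (fun h' => ex d0 hd0z h h')
      · exact Or.inl h'.2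
      · exact Or.inr h'.2
    · exact Or.inl h.2
    · exact Or.inr h.2
  have c1 : (∃ w, G.adj w a' ∧ G.adj w b ∧ G.adj w d1) ∨ (∃ w, G.adj w b' ∧ G.adj w a ∧ G.adj w d1) := by
    rcases blk k2 d1 d0 hk2 hk21 hd1 hd0 hd10 hd1u hd0u with h | h | h
    · rcases blk k3 d1 d0 hk3 hk31 hd1 hd0 hd10 hd1u hd0u with h' | h' | h'
      · exact absurd h' (fun h' => ex d1 hd1z h h')
      · exact Or.inl h'.2
      · exact Or.inr h'.2
    · exact Or.inl h.2
    · exact Or.inr h.2
  have xA := exJ a' b L0 (ne01 a' b ha' ha'u hb) ha' (Or.inl rfl) ha'u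
  have xB := exJ b' a L1 (ne01 a b' ha hau hb').symm hb' (Or.inr rfl) hb'u
  rcases c0 with h0 | h0
  · rcases c1 with h1 | h1
    · exact xA h0 h1
    · exact fin d0 d1 hd0 hd1 (Ne.symm hd10) hd0u hd1u exD h0 h1 (fun h => xA h0 h) (fun h => xB h h1)
  · rcases c1 with h1 | h1
    · exact fin d1 d0 hd1 hd0 hd10 hd1u hd0u (fun m hm g1 g0 => exD m hm g0 g1) h1 h0 (fun h => xA h h1) (fun h => xB h0 h)
    · exact xB h0 h1

/-- second case: a line through z contains no second neighbour of u apart from possibly a' -/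
theorem case2M (hE : IsRep G E) {u z a a' L0 L1 L2 k1 : V} (cu : G.col u = true)
    (h01 : L0 ≠ L1) (h02 : L0 ≠ L2) (h12 : L1 ≠ L2)
    (au0 : G.adj u L0) (au1 : G.adj u L1) (au2 : G.adj u L2)
    (nz : ∀ l, G.adj l u → ¬ G.adj l z) (cz : G.col z = true)
    (ha : G.adj L0 a) (hau : a ≠ u) (ha' : G.adj L0 a') (ha'u : a' ≠ u) (ha'a : a' ≠ a)
    (kz : G.adj k1 z)
    (hk : ∀ p, G.adj k1 p → (G.adj p L0 ∨ G.adj p L1 ∨ G.adj p L2) → p = a') :
    Many G := by
  have cm : G.col k1 = false := (Cfg.col_of kz).2.2.1 cz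
  have nk : ¬ G.adj k1 u := fun h => nz k1 h kz
  have ne01 : ∀ p q, G.adj L0 p → p ≠ u → G.adj L1 q → p ≠ q := by
    rintro p q h1 h2 h3 rfl
    exact G.lin h2 h01 (G.symm h1) (G.symm h3) au0 au1
  have ne02 : ∀ p q, G.adj L0 p → p ≠ u → G.adj L2 q → p ≠ q := by
    rintro p q h1 h2 h3 rfl
    exact G.lin h2 h02 (G.symm h1) (G.symm h3) au0 au2
  have main : ∀ b d, G.adj L1 b → b ≠ u → G.adj L2 d → d ≠ u → E a ⬝ᵥ (E b ⨯₃ E d) ≠ 0 →
      (G.adj k1 a' → ∀ w, G.adj w a' → G.adj w b → G.adj w d → False) → Many G := by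
    intro b d hb hbu hd hdu hdet hJ
    obtain ⟨b', hb', hb'u, hb'b⟩ := G.third L1 u b
    obtain ⟨d', hd', hd'u, hd'd⟩ := G.third L2 u d
    have hloc := Loc.mk' G u k1 L0 L1 L2 a' b' d' a b d cu cm h01 h02 h12 au0 au1 au2 ha' hb' hd' ha hb hd
      ha'u.symm hb'u.symm hd'u.symm hau.symm hbu.symm hdu.symm ha'a hb'b hd'd nk
      (fun h => ha'a (hk a h (Or.inl (G.symm ha))).symm)
      (fun h => ne01 a' b ha' ha'u hb (hk b h (Or.inr (Or.inl (G.symm hb)))).symm)
      (fun h => ne02 a' d ha' ha'u hd (hk d h (Or.inr (Or.inr (G.symm hd)))).symm)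
      hJ
      (fun h => absurd (hk b' h (Or.inr (Or.inl (G.symm hb')))).symm (ne01 a' b' ha' ha'u hb'))
      (fun h => absurd (hk d' h (Or.inr (Or.inr (G.symm hd')))).symm (ne02 a' d' ha' ha'u hd'))
    apply second_repM hloc hE
    simp only [Fin.isValue, cons_val_zero, cons_val_one, cons_val]
    exact hdet
  obtain ⟨b0, hb0, hb0u, _⟩ := G.third L1 u u
  obtain ⟨b1, hb1, hb1u, hb10⟩ := G.third L1 u b0
  obtain ⟨d0, hd0, hd0u, _⟩ := G.third L2 u u
  obtain ⟨d1, hd1, hd1u, hd10⟩ := G.third L2 u d0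
  have r0 : ∃ d, G.adj L2 d ∧ d ≠ u ∧ E a ⬝ᵥ (E b0 ⨯₃ E d) ≠ 0 := by
    rcases row hE cu h01 au0 au1 au2 ha hau hb0 hb0u hd0 hd1 (Ne.symm hd10) hd0u hd1u with h | h
    · exact ⟨d0, hd0, hd0u, h⟩
    · exact ⟨d1, hd1, hd1u, h⟩
  have r1 : ∃ d, G.adj L2 d ∧ d ≠ u ∧ E a ⬝ᵥ (E b1 ⨯₃ E d) ≠ 0 := by
    rcases row hE cu h01 au0 au1 au2 ha hau hb1 hb1u hd0 hd1 (Ne.symm hd10) hd0u hd1u with h | h
    · exact ⟨d0, hd0, hd0u, h⟩
    · exact ⟨d1, hd1, hd1u, h⟩
  obtain ⟨e0, he0, he0u, hdet0⟩ := r0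
  obtain ⟨e1, he1, he1u, hdet1⟩ := r1
  by_cases hA : G.adj k1 a'
  · by_cases hJ : ∃ w, G.adj w a' ∧ G.adj w b0 ∧ G.adj w e0
    · apply main b1 e1 hb1 hb1u he1 he1u hdet1
      intro _ w' w1' w2' w3'
      obtain ⟨w, w1, w2, w3⟩ := hJ
      have wL0 : w ≠ L0 := by rintro rfl; exact ne01 b0 b0 w2 hb0u hb0 rfl
      have wk : w ≠ k1 := by
        rintro rfl
        exact ne01 a' b0 ha' ha'u hb0 (hk b0 w2 (Or.inr (Or.inl (G.symm hb0)))).symm
      have w'L0 : w' ≠ L0 := by rintro rfl; exact ne01 b1 b1 w2' hb1u hb1 rfl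
      have w'k : w' ≠ k1 := by
        rintro rfl
        exact ne01 a' b1 ha' ha'u hb1 (hk b1 w2' (Or.inr (Or.inl (G.symm hb1)))).symm
      have L0k : L0 ≠ k1 := by rintro rfl; exact nk (G.symm au0)
      rcases G.mem_of_three L0k (Ne.symm wL0) (Ne.symm wk) (G.symm ha') (G.symm hA) (G.symm w1) (G.symm w1') with h | h | h
      · exact w'L0 h
      · exact w'k h
      · subst h
        have hw : w' = L1 := by
          by_contra hne
          exact G.lin (Ne.symm hb10) hne (G.symm w2) (G.symm hb0) (G.symm w2') (G.symm hb1)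
        subst hw
        exact ne01 a' a' ha' ha'u w1 rfl
    · apply main b0 e0 hb0 hb0u he0 he0u hdet0
      intro _ w w1 w2 w3
      exact hJ ⟨w, w1, w2, w3⟩
  · exact main b0 e0 hb0 hb0u he0 he0u hdet0 (fun h => absurd h hA)

theorem main_repM (hE : IsRep G E) (u : V) (cu : G.col u = true) : Many G := by
  obtain ⟨z, cz, hzu, nz⟩ := exists_noncollinear hE u cu
  obtain ⟨L0, L1, L2, h01, h02, h12, au0, au1, au2, hu⟩ := G.three u
  have n0 := nz L0 (G.symm au0)
  have n1 := nz L1 (G.symm au1)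
  have n2 := nz L2 (G.symm au2)
  obtain ⟨k, hk, _, _⟩ := G.third z z z
  have hku : ¬ G.adj k u := fun h => nz k h (G.symm hk)
  -- is there a pair of second neighbours on k
  by_cases h1 : ∃ p q, p ≠ q ∧ G.adj k p ∧ G.adj k q ∧ (G.adj p L0 ∨ G.adj p L1 ∨ G.adj p L2) ∧ (G.adj q L0 ∨ G.adj q L1 ∨ G.adj q L2)
  · obtain ⟨p, q, hpq, kp, kq, hp, hq⟩ := h1
    have hpu : p ≠ u := by rintro rfl; exact hku kp
    have hqu : q ≠ u := by rintro rfl; exact hku kq
    have same : ∀ L, G.adj u L → G.adj p L → G.adj q L → False := by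
      intro L hL h1 h2
      have : k ≠ L := by rintro rfl; exact hku (G.symm hL)
      exact G.lin hpq this (G.symm kp) h1 (G.symm kq) h2
    have c := fun (M0 M1 M2 : V) (g01 : M0 ≠ M1) (g02 : M0 ≠ M2) (g12 : M1 ≠ M2) (b0 : G.adj u M0) (b1 : G.adj u M1) (b2 : G.adj u M2)
      (hp : G.adj p M0) (hq : G.adj q M1) => case1M hE cu g01 g02 g12 b0 b1 b2 nz cz (G.symm hp) hpu (G.symm hq) hqu (G.symm hk) kp kq
    rcases hp with hp | hp | hp <;> rcases hq with hq | hq | hq
    · exact absurd hq (fun hq => same L0 au0 hp hq)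
    · exact c L0 L1 L2 h01 h02 h12 au0 au1 au2 hp hq
    · exact c L0 L2 L1 h02 h01 h12.symm au0 au2 au1 hp hq
    · exact c L1 L0 L2 h01.symm h12 h02 au1 au0 au2 hp hq
    · exact absurd hq (fun hq => same L1 au1 hp hq)
    · exact c L1 L2 L0 h12 h01.symm h02.symm au1 au2 au0 hp hq
    · exact c L2 L0 L1 h02.symm h12.symm h01 au2 au0 au1 hp hq
    · exact c L2 L1 L0 h12.symm h02.symm h01.symm au2 au1 au0 hp hq
    · exact absurd hq (fun hq => same L2 au2 hp hq)
  · push Not at h1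
    have uniq : ∀ p q, G.adj k p → G.adj k q → (G.adj p L0 ∨ G.adj p L1 ∨ G.adj p L2) → (G.adj q L0 ∨ G.adj q L1 ∨ G.adj q L2) → p = q := by
      intro p q kp kq hp hq
      by_contra hne
      obtain ⟨g1, g2, g3⟩ := h1 p q hne kp kq hp
      rcases hq with h | h | h
      · exact g1 h
      · exact g2 h
      · exact g3 h
    have fin : ∀ (M0 M1 M2 a' : V), M0 ≠ M1 → M0 ≠ M2 → M1 ≠ M2 → G.adj u M0 → G.adj u M1 → G.adj u M2 → G.adj M0 a' → a' ≠ u →
        (∀ p, G.adj k p → (G.adj p M0 ∨ G.adj p M1 ∨ G.adj p M2) → p = a') → Many G := by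
      intro M0 M1 M2 a' g01 g02 g12 b0 b1 b2 ha' ha'u hh
      obtain ⟨a, ha, hau, haa⟩ := G.third M0 u a'
      exact case2M hE cu g01 g02 g12 b0 b1 b2 nz cz ha hau ha' ha'u (Ne.symm haa) (G.symm hk) hh
    by_cases h2 : ∃ p, G.adj k p ∧ (G.adj p L0 ∨ G.adj p L1 ∨ G.adj p L2)
    · obtain ⟨p, kp, hp⟩ := h2
      have hpu : p ≠ u := by rintro rfl; exact hku kp
      rcases hp with hp | hp | hp
      · exact fin L0 L1 L2 p h01 h02 h12 au0 au1 au2 (G.symm hp) hpu (fun q kq hq => uniq q p kq kp hq (Or.inl hp))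
      · exact fin L1 L0 L2 p h01.symm h12 h02 au1 au0 au2 (G.symm hp) hpu
          (fun q kq hq => uniq q p kq kp (by rcases hq with h | h | h
                                             · exact Or.inr (Or.inl h)
                                             · exact Or.inl h
                                             · exact Or.inr (Or.inr h)) (Or.inr (Or.inl hp)))
      · exact fin L2 L0 L1 p h02.symm h12.symm h01 au2 au0 au1 (G.symm hp) hpu
          (fun q kq hq => uniq q p kq kp (by rcases hq with h | h | h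
                                             · exact Or.inr (Or.inr h)
                                             · exact Or.inl h
                                             · exact Or.inr (Or.inl h)) (Or.inr (Or.inr hp)))
    · push Not at h2
      obtain ⟨a', ha', ha'u, _⟩ := G.third L0 u u
      exact fin L0 L1 L2 a' h01 h02 h12 au0 au1 au2 ha' ha'u (fun q kq hq => by
        obtain ⟨g1, g2, g3⟩ := h2 q kq
        rcases hq with h | h | h
        · exact absurd h g1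
        · exact absurd h g2
        · exact absurd h g3)


end selection

end Pool.Agent.Y370.RigidC
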