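import Pool.Agent.Helper680.RigidConfig

/-!
# One-parameter families of points on a cubic curve

Strengthening of `Pool.Agent.Helper680.RigidConfig.Cubic.cubic_lemma`: the real points of the cubic
outside the curve `g = 0` contain a family of pairwise different projective points that is indexed
by the real numbers.
-/

set_option autoImplicit false

namespace Pool.Agent.Y370.RigidC

open MvPolynomial

/-- reparametrization of families indexed by an interval `(0, ε)` -/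
theorem fam_of_Ioo {α : Type*} {ε : ℝ} (hε : 0 < ε) (F : ℝ → α) (P : α → Prop)
    (D : α → α → Prop) (h1 : ∀ t, 0 < t → t < ε → P (F t))
    (h2 : ∀ s t, 0 < s → s < ε → 0 < t → t < ε → s ≠ t → D (F s) (F t)) :
    ∃ X : ℝ → α, (∀ t, P (X t)) ∧ ∀ s t, s ≠ t → D (X s) (X t) := by
  have hpos : ∀ t : ℝ, 0 < ε / (1 + Real.exp t) := fun t => by positivity
  have hlt : ∀ t : ℝ, ε / (1 + Real.exp t) < ε := fun t => by
    rw [div_lt_iff₀ (by positivity)]
    nlinarith [Real.exp_pos t]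
  refine ⟨fun t => F (ε / (1 + Real.exp t)), fun t => h1 _ (hpos t) (hlt t), fun s t hst => ?_⟩
  refine h2 _ _ (hpos s) (hlt s) (hpos t) (hlt t) fun h => hst ?_
  rw [div_eq_div_iff (by positivity) (by positivity)] at h
  have := mul_left_cancel₀ hε.ne' h
  exact (Real.exp_injective (by linarith)).symm

theorem circ (F : ℝ → ℝ → ℝ) (hF : Continuous (fun p : ℝ × ℝ => F p.1 p.2)) (s t : ℝ)
    (h : F s t * F (-s) (-t) ≤ 0) : ∃ s' t', s' ^ 2 + t' ^ 2 = s ^ 2 + t ^ 2 ∧ F s' t' = 0 := by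
  set φ : ℝ → ℝ := fun θ =>
    F (s * Real.cos θ - t * Real.sin θ) (s * Real.sin θ + t * Real.cos θ) with hφ
  have hcont : Continuous φ := by
    have : Continuous (fun θ : ℝ => ((s * Real.cos θ - t * Real.sin θ, s * Real.sin θ + t * Real.cos θ) : ℝ × ℝ)) := by
      fun_prop
    exact hF.comp this
  have h0 : φ 0 = F s t := by simp [hφ]
  have hπ : φ Real.pi = F (-s) (-t) := by simp [hφ]
  have hz : (0 : ℝ) ∈ Set.range φ := by
    rcases mul_nonpos_iff.1 h with ⟨ha, hb⟩ | ⟨ha, hb⟩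
    · exact mem_range_of_exists_le_of_exists_ge hcont ⟨Real.pi, by rw [hπ]; exact hb⟩
        ⟨0, by rw [h0]; exact ha⟩
    · exact mem_range_of_exists_le_of_exists_ge hcont ⟨0, by rw [h0]; exact ha⟩
        ⟨Real.pi, by rw [hπ]; exact hb⟩
  obtain ⟨θ, hθ⟩ := hz
  refine ⟨_, _, ?_, hθ⟩
  have := Real.sin_sq_add_cos_sq θ
  linear_combination (s ^ 2 + t ^ 2) * this

theorem near_alt (l1 l2 q11 q12 q22 c1 c2 : ℝ) :
    (∃ κ δ : ℝ, 0 < κ ∧ 0 < δ ∧ ∀ ρ, 0 < ρ → ρ < δ → ∃ s t : ℝ, s ^ 2 + t ^ 2 = ρ ^ 2 * κ ∧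
      (l1*s+l2*t) + (q11*s^2+q12*s*t+q22*t^2) + (c1*s^2*t+c2*s*t^2) = 0) ∨
    (l1 = 0 ∧ l2 = 0 ∧ ∀ s t : ℝ, (s ≠ 0 ∨ t ≠ 0) → q11*s^2+q12*s*t+q22*t^2 ≠ 0) := by
  set F : ℝ → ℝ → ℝ := fun s t =>
    (l1*s+l2*t) + (q11*s^2+q12*s*t+q22*t^2) + (c1*s^2*t+c2*s*t^2) with hF
  have hc : Continuous (fun p : ℝ × ℝ => F p.1 p.2) := by
    simp only [hF]
    fun_prop
  by_cases hl : l1 = 0 ∧ l2 = 0
  · by_cases hq : ∀ s t : ℝ, (s ≠ 0 ∨ t ≠ 0) → q11*s^2+q12*s*t+q22*t^2 ≠ 0
    · exact Or.inr ⟨hl.1, hl.2, hq⟩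
    · push Not at hq
      obtain ⟨s0, t0, hst, hq0⟩ := hq
      left
      have hκ : 0 < s0 ^ 2 + t0 ^ 2 := by
        rcases hst with h | h
        · have := sq_pos_of_ne_zero h
          nlinarith [sq_nonneg t0]
        · have := sq_pos_of_ne_zero h
          nlinarith [sq_nonneg s0]
      refine ⟨s0 ^ 2 + t0 ^ 2, 1, hκ, one_pos, fun ρ _ _ => ?_⟩
      obtain ⟨s, t, h1, h2⟩ := circ F hc (ρ * s0) (ρ * t0) (by
        simp only [hF, hl.1, hl.2]
        have e1 : (0 * (ρ * s0) + 0 * (ρ * t0) + (q11 * (ρ * s0) ^ 2 + q12 * (ρ * s0) * (ρ * t0) + q22 * (ρ * t0) ^ 2) +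
          (c1 * (ρ * s0) ^ 2 * (ρ * t0) + c2 * (ρ * s0) * (ρ * t0) ^ 2)) = ρ ^ 3 * (c1 * s0 ^ 2 * t0 + c2 * s0 * t0 ^ 2) := by
          linear_combination ρ ^ 2 * hq0
        have e2 : (0 * -(ρ * s0) + 0 * -(ρ * t0) + (q11 * (-(ρ * s0)) ^ 2 + q12 * -(ρ * s0) * -(ρ * t0) + q22 * (-(ρ * t0)) ^ 2) +
          (c1 * (-(ρ * s0)) ^ 2 * -(ρ * t0) + c2 * -(ρ * s0) * (-(ρ * t0)) ^ 2)) = - (ρ ^ 3 * (c1 * s0 ^ 2 * t0 + c2 * s0 * t0 ^ 2)) := by
          linear_combination ρ ^ 2 * hq0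
        rw [e1, e2]
        nlinarith [sq_nonneg (ρ ^ 3 * (c1 * s0 ^ 2 * t0 + c2 * s0 * t0 ^ 2))])
      exact ⟨s, t, by rw [h1]; ring, h2⟩
  · left
    have hL : 0 < l1 ^ 2 + l2 ^ 2 := by
      by_contra hcon
      apply hl
      constructor <;> nlinarith [sq_nonneg l1, sq_nonneg l2]
    set L := l1 ^ 2 + l2 ^ 2 with hLdef
    set Q := q11*l1^2+q12*l1*l2+q22*l2^2 with hQ
    set C := c1*l1^2*l2+c2*l1*l2^2 with hC
    have hden : 0 < 2 * (|Q| + |C| + 1) := by positivity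
    refine ⟨L, min 1 (L / (2 * (|Q| + |C| + 1))), hL, lt_min one_pos (by positivity), fun ρ h0 h1 => ?_⟩
    have hρ1 : ρ < 1 := lt_of_lt_of_le h1 (min_le_left _ _)
    have hρ2 : ρ * (2 * (|Q| + |C| + 1)) < L := by
      have := lt_of_lt_of_le h1 (min_le_right _ _)
      rwa [lt_div_iff₀ hden] at this
    have hQa : -|Q| ≤ Q ∧ Q ≤ |Q| := ⟨neg_abs_le Q, le_abs_self Q⟩
    have hCa : -|C| ≤ C ∧ C ≤ |C| := ⟨neg_abs_le C, le_abs_self C⟩
    have hQ0 : 0 ≤ |Q| := abs_nonneg Q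
    have hC0 : 0 ≤ |C| := abs_nonneg C
    have a1 : ρ * |Q| ≤ L / 2 := by nlinarith
    have a2 : ρ * |C| ≤ L / 2 := by nlinarith
    have a3 : ρ ^ 2 * |C| ≤ L / 2 := by nlinarith [mul_nonneg h0.le hC0]
    have a4 : L / 2 ≤ L + ρ ^ 2 * C := by nlinarith [sq_nonneg ρ]
    have a5 : |ρ * Q| ≤ L / 2 := by rw [abs_mul, abs_of_pos h0]; exact a1
    have a6 : (ρ * Q) ^ 2 ≤ (L + ρ ^ 2 * C) ^ 2 := by
      have : |ρ * Q| ≤ |L + ρ ^ 2 * C| := by
        rw [abs_of_nonneg (show 0 ≤ L + ρ ^ 2 * C by linarith)]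
        linarith
      exact sq_le_sq.2 this
    obtain ⟨s, t, h3, h4⟩ := circ F hc (ρ * l1) (ρ * l2) (by
      have e1 : F (ρ * l1) (ρ * l2) = ρ * L + ρ ^ 2 * Q + ρ ^ 3 * C := by
        simp only [hF, hLdef, hQ, hC]; ring
      have e2 : F (-(ρ * l1)) (-(ρ * l2)) = - (ρ * L) + ρ ^ 2 * Q - ρ ^ 3 * C := by
        simp only [hF, hLdef, hQ, hC]; ring
      rw [e1, e2]
      have e3 : (ρ * L + ρ ^ 2 * Q + ρ ^ 3 * C) * (- (ρ * L) + ρ ^ 2 * Q - ρ ^ 3 * C) =
        ρ ^ 2 * ((ρ * Q) ^ 2 - (L + ρ ^ 2 * C) ^ 2) := by ring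
      rw [e3]
      nlinarith [sq_nonneg ρ])
    exact ⟨s, t, by rw [h3, hLdef]; ring, h4⟩

theorem cubic_fam
    (f : (Fin 3 → ℝ) → ℝ) (g : MvPolynomial (Fin 3) ℝ)
    (u a b d : Fin 3 → ℝ)
    (l1 l2 q11 q12 q22 c1 c2 : ℝ)
    (hf : ∀ α s t : ℝ, f (α • u + s • a + t • b) =
      α^2*(l1*s+l2*t) + α*(q11*s^2+q12*s*t+q22*t^2) + (c1*s^2*t+c2*s*t^2))
    (hindep : ∀ α s t : ℝ, α • u + s • a + t • b = 0 → α = 0 ∧ s = 0 ∧ t = 0)
    (αd sd td : ℝ) (hd : d = αd • u + sd • a + td • b) (hαd : αd ≠ 0)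
    (hst : sd ≠ 0 ∨ td ≠ 0) (hfd : f d = 0)
    (hg : ∀ c : ℂ, c ≠ 0 → MvPolynomial.aeval (fun i => c * (u i : ℂ)) g ≠ 0) :
    ∃ X : ℝ → (Fin 3 → ℝ), (∀ t, f (X t) = 0 ∧ MvPolynomial.eval (X t) g ≠ 0) ∧
      ∀ s t, s ≠ t → ∀ c : ℝ, X s ≠ c • X t := by
  rcases near_alt l1 l2 q11 q12 q22 c1 c2 with ⟨κ, δ, hκ, hδ, hz⟩ | ⟨hl1, hl2, hQ⟩
  · -- g u ≠ 0
    have hgu : MvPolynomial.eval u g ≠ 0 := by
      intro h0
      apply hg 1 one_ne_zero
      have : (MvPolynomial.aeval (fun i => (1:ℂ) * (u i : ℂ)) g) = ((MvPolynomial.eval u g : ℝ) : ℂ) := by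
        simp only [one_mul]
        have h1 := MvPolynomial.aeval_algebraMap_apply ℂ u g
        rw [MvPolynomial.aeval_eq_eval] at h1
        exact h1
      rw [this, h0]; simp
    -- neighbourhood
    have hnear : ∃ δ > 0, ∀ s t : ℝ, s^2 + t^2 < δ → MvPolynomial.eval (u + s • a + t • b) g ≠ 0 := by
      have hc : Continuous (fun z : ℝ × ℝ => MvPolynomial.eval (u + z.1 • a + z.2 • b) g) := by
        apply (MvPolynomial.continuous_eval g).comp
        fun_prop
      have hopen : IsOpen {z : ℝ × ℝ | MvPolynomial.eval (u + z.1 • a + z.2 • b) g ≠ 0} :=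
        isOpen_ne_fun hc continuous_const
      have hmem : ((0:ℝ),(0:ℝ)) ∈ {z : ℝ × ℝ | MvPolynomial.eval (u + z.1 • a + z.2 • b) g ≠ 0} := by
        simpa using hgu
      obtain ⟨r, hr, hball⟩ := Metric.isOpen_iff.mp hopen _ hmem
      refine ⟨r^2, by positivity, ?_⟩
      intro s t hst
      have hs : |s| < r := abs_lt_of_sq_lt_sq (by nlinarith [sq_nonneg t]) hr.le
      have ht : |t| < r := abs_lt_of_sq_lt_sq (by nlinarith [sq_nonneg s]) hr.le
      have hm : ((s,t) : ℝ × ℝ) ∈ Metric.ball ((0:ℝ),(0:ℝ)) r := by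
        rw [Metric.mem_ball, Prod.dist_eq, max_lt_iff, Real.dist_eq, Real.dist_eq]
        simp only [sub_zero]
        exact ⟨hs, ht⟩
      have h9 := hball hm
      rw [Set.mem_ofPred_eq] at h9
      exact h9
    obtain ⟨δ', hδ', hnear⟩ := hnear
    have hz' : ∀ ρ : ℝ, ∃ s t : ℝ, 0 < ρ → ρ < δ → s ^ 2 + t ^ 2 = ρ ^ 2 * κ ∧
        (l1*s+l2*t) + (q11*s^2+q12*s*t+q22*t^2) + (c1*s^2*t+c2*s*t^2) = 0 := by
      intro ρ
      by_cases h : 0 < ρ ∧ ρ < δ
      · obtain ⟨s, t, h1, h2⟩ := hz ρ h.1 h.2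
        exact ⟨s, t, fun _ _ => ⟨h1, h2⟩⟩
      · exact ⟨0, 0, fun h1 h2 => absurd ⟨h1, h2⟩ h⟩
    choose S T hST using hz'
    have hε : 0 < min δ (min 1 (δ' / κ)) := lt_min hδ (lt_min one_pos (by positivity))
    refine fam_of_Ioo hε (fun ρ => u + S ρ • a + T ρ • b)
      (fun x => f x = 0 ∧ MvPolynomial.eval x g ≠ 0) (fun x y => ∀ c : ℝ, x ≠ c • y) ?_ ?_
    · intro ρ h0 h1
      have h2 : ρ < δ := lt_of_lt_of_le h1 (min_le_left _ _)
      have h3 : ρ < 1 := lt_of_lt_of_le h1 ((min_le_right _ _).trans (min_le_left _ _))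
      have h4 : ρ * κ < δ' := by
        have := lt_of_lt_of_le h1 ((min_le_right _ _).trans (min_le_right _ _))
        rwa [lt_div_iff₀ hκ] at this
      obtain ⟨h5, h6⟩ := hST ρ h0 h2
      refine ⟨?_, hnear _ _ ?_⟩
      · have := hf 1 (S ρ) (T ρ)
        simp only [one_smul, one_pow, one_mul] at this
        show f (u + S ρ • a + T ρ • b) = 0
        rw [this]; exact h6
      · rw [h5]
        have : ρ ^ 2 * κ ≤ ρ * κ := by
          have : ρ ^ 2 ≤ ρ := by nlinarith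
          exact mul_le_mul_of_nonneg_right this hκ.le
        linarith
    · intro ρ ρ' h0 h1 h0' h1' hne c hc
      have h2 : ρ < δ := lt_of_lt_of_le h1 (min_le_left _ _)
      have h2' : ρ' < δ := lt_of_lt_of_le h1' (min_le_left _ _)
      obtain ⟨h5, _⟩ := hST ρ h0 h2
      obtain ⟨h5', _⟩ := hST ρ' h0' h2'
      have h7 : (1 - c) • u + (S ρ - c * S ρ') • a + (T ρ - c * T ρ') • b = 0 := by
        have h8 : u + S ρ • a + T ρ • b = c • (u + S ρ' • a + T ρ' • b) := hc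
        have h9 : (1 - c) • u + (S ρ - c * S ρ') • a + (T ρ - c * T ρ') • b =
          (u + S ρ • a + T ρ • b) - c • (u + S ρ' • a + T ρ' • b) := by
          simp only [sub_smul, smul_add, mul_smul, one_smul]
          abel
        rw [h9, h8, sub_self]
      obtain ⟨k1, k2, k3⟩ := hindep _ _ _ h7
      have hc1 : c = 1 := by linarith
      rw [hc1, one_mul] at k2 k3
      have k2' : S ρ = S ρ' := by linarith
      have k3' : T ρ = T ρ' := by linarith
      rw [k2', k3', h5'] at h5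
      have h10 : ρ' ^ 2 = ρ ^ 2 := mul_right_cancel₀ hκ.ne' h5
      exact hne ((sq_eq_sq₀ h0.le h0'.le).1 h10.symm)
  · subst hl1 hl2
    -- residual points
    set r : ℝ → (Fin 3 → ℝ) := fun s =>
      (c1*s^2+c2*s) • u + (-(q11*s^2+q12*s+q22)*s) • a + (-(q11*s^2+q12*s+q22)) • b with hr
    -- polynomial version
    set R : Fin 3 → Polynomial ℝ := fun i =>
      (Polynomial.C c1 * Polynomial.X^2 + Polynomial.C c2 * Polynomial.X) * Polynomial.C (u i)
      + (-(Polynomial.C q11 * Polynomial.X^2 + Polynomial.C q12 * Polynomial.X + Polynomial.C q22) * Polynomial.X) * Polynomial.C (a i)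
      + (-(Polynomial.C q11 * Polynomial.X^2 + Polynomial.C q12 * Polynomial.X + Polynomial.C q22)) * Polynomial.C (b i) with hR
    set G : Polynomial ℝ := MvPolynomial.aeval R g with hG
    have hGe : ∀ s : ℝ, Polynomial.eval s G = MvPolynomial.eval (r s) g := by
      intro s
      rw [hG]
      have h1 : Polynomial.eval s (MvPolynomial.aeval R g) = MvPolynomial.aeval (fun i => Polynomial.aeval s (R i)) g := by
        rw [← Polynomial.coe_aeval_eq_eval]
        have := MvPolynomial.comp_aeval_apply (R := ℝ) R (Polynomial.aeval s : Polynomial ℝ →ₐ[ℝ] ℝ) g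
        simpa using this
      rw [h1, MvPolynomial.aeval_eq_eval]
      congr 1
      congr 1
      funext i
      simp [hR, hr]
    have hGne : G ≠ 0 := by
      intro hG0
      -- complex root
      have hq11 : q11 ≠ 0 := by
        have := hQ 1 0 (by simp)
        simpa using this
      obtain ⟨τ, hτ⟩ : ∃ τ : ℂ, (q11:ℂ)*τ^2 + q12*τ + q22 = 0 := by
        have hdeg : (Polynomial.C (q11:ℂ) * Polynomial.X^2 + Polynomial.C (q12:ℂ) * Polynomial.X + Polynomial.C (q22:ℂ)).degree ≠ 0 := by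
          rw [Polynomial.degree_quadratic (by exact_mod_cast hq11)]
          decide
        obtain ⟨τ, hτ⟩ := IsAlgClosed.exists_root _ hdeg
        refine ⟨τ, ?_⟩
        simpa [Polynomial.IsRoot] using hτ
      have hτim : τ.im ≠ 0 := by
        intro him
        have hre : (τ.re : ℂ) = τ := by
          apply Complex.ext <;> simp [him]
        apply hQ τ.re 1 (by simp)
        rw [← hre] at hτ
        have h2 : ((q11*τ.re^2 + q12*τ.re + q22 : ℝ) : ℂ) = 0 := by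
          push_cast; exact hτ
        have h3 := Complex.ofReal_eq_zero.mp h2
        linarith
      have hgτ : MvPolynomial.aeval (fun i => ((c1:ℂ)*τ^2+c2*τ) * (u i : ℂ)) g = 0 := by
        have h1 : Polynomial.aeval τ G = 0 := by rw [hG0]; simp
        have h2 : Polynomial.aeval τ G = MvPolynomial.aeval (fun i => Polynomial.aeval τ (R i)) g := by
          rw [hG]
          have := MvPolynomial.comp_aeval_apply (R := ℝ) R (Polynomial.aeval τ : Polynomial ℝ →ₐ[ℝ] ℂ) g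
          simpa using this
        rw [h2] at h1
        rw [← h1]
        congr 1
        congr 1
        funext i
        simp only [hR, map_add, map_mul, map_neg, Polynomial.aeval_C, Polynomial.aeval_X, map_pow, Complex.coe_algebraMap]
        linear_combination (-(τ * (a i:ℂ)) - (b i:ℂ)) * (-hτ)
      have hCτ : (c1:ℂ)*τ^2+c2*τ = 0 := by
        by_contra hne
        exact hg _ hne hgτ
      have hτ0 : τ ≠ 0 := by
        intro h; apply hτim; rw [h]; simp
      have hlin : (c1:ℂ)*τ+c2 = 0 := by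
        have : τ * ((c1:ℂ)*τ+c2) = 0 := by linear_combination hCτ
        rcases mul_eq_zero.mp this with h | h
        · exact absurd h hτ0
        · exact h
      have hc1 : c1 = 0 := by
        have := congrArg Complex.im hlin
        simp at this
        rcases this with h | h
        · exact h
        · exact absurd h hτim
      have hc2 : c2 = 0 := by
        rw [hc1] at hlin
        simpa using hlin
      -- conclusion
      rw [hd, hf, hc1, hc2] at hfd
      have h5 : αd * (q11*sd^2+q12*sd*td+q22*td^2) = 0 := by linarith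
      rcases mul_eq_zero.mp h5 with h | h
      · exact hαd h
      · exact hQ sd td hst h
    -- no roots near 0
    obtain ⟨ε, hε, hroot⟩ : ∃ ε > 0, ∀ s : ℝ, 0 < s → s < ε → Polynomial.eval s G ≠ 0 := by
      have hfin : ({x : ℝ | Polynomial.IsRoot G x} \ {0}).Finite :=
        (Polynomial.finite_setOfPred_isRoot hGne).subset Set.sdiff_subset
      have hopen : IsOpen ({x : ℝ | Polynomial.IsRoot G x} \ {0})ᶜ := hfin.isClosed.isOpen_compl
      have h0 : (0 : ℝ) ∈ ({x : ℝ | Polynomial.IsRoot G x} \ {0})ᶜ := by simp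
      obtain ⟨ε, hε, hball⟩ := Metric.isOpen_iff.mp hopen _ h0
      refine ⟨ε, hε, fun s h1 h2 h3 => ?_⟩
      have h4 : s ∈ Metric.ball (0:ℝ) ε := by
        rw [Metric.mem_ball, Real.dist_eq, sub_zero, abs_of_pos h1]; exact h2
      exact hball h4 ⟨h3, fun h => h1.ne' h⟩
    refine fam_of_Ioo hε r (fun x => f x = 0 ∧ MvPolynomial.eval x g ≠ 0)
      (fun x y => ∀ c : ℝ, x ≠ c • y) ?_ ?_
    · intro s h0 h1
      refine ⟨?_, ?_⟩
      · simp only [hr]
        rw [hf]; ring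
      · rw [← hGe]; exact hroot s h0 h1
    · intro s t h0 h1 h0' h1' hne c hc
      have h7 : ((c1*s^2+c2*s) - c * (c1*t^2+c2*t)) • u +
          ((-(q11*s^2+q12*s+q22)*s) - c * (-(q11*t^2+q12*t+q22)*t)) • a +
          ((-(q11*s^2+q12*s+q22)) - c * (-(q11*t^2+q12*t+q22))) • b = 0 := by
        have h8 : r s = c • r t := hc
        have h9 : ((c1*s^2+c2*s) - c * (c1*t^2+c2*t)) • u +
          ((-(q11*s^2+q12*s+q22)*s) - c * (-(q11*t^2+q12*t+q22)*t)) • a +
          ((-(q11*s^2+q12*s+q22)) - c * (-(q11*t^2+q12*t+q22))) • b = r s - c • r t := by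
          funext i
          simp only [hr, Pi.add_apply, Pi.sub_apply, Pi.smul_apply, smul_eq_mul]
          ring
        rw [h9, h8, sub_self]
      obtain ⟨_, k2, k3⟩ := hindep _ _ _ h7
      have hQs : q11*s^2+q12*s+q22 ≠ 0 := by
        have := hQ s 1 (by simp)
        intro h; apply this; linarith
      have h10 : (q11*s^2+q12*s+q22) * (s - t) = 0 := by linear_combination (-1) * k2 + t * k3
      rcases mul_eq_zero.1 h10 with h | h
      · exact hQs h
      · exact hne (by linarith)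

end Pool.Agent.Y370.RigidC
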